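import Pool.Agent.Helper84.ND.Inside

/-!
Barycentric coordinates with respect to a unimodular triangle.
-/

namespace Helper84.ND

open Matrix Set Helper31.Ewald Helper15.NL

/-- first coordinate of `s` in the affine basis `p, q, r` (one at `q`, zero at `p` and `r`) -/
def cX (p q r : Fin 2 → ℤ) (s : Fin 2 → ℝ) : ℝ :=
  (area p q r : ℝ) * ((s 0 - p 0) * ((r 1 : ℝ) - p 1) - (s 1 - p 1) * ((r 0 : ℝ) - p 0))

/-- second coordinate of `s` in the affine basis `p, q, r` (one at `r`, zero at `p` and `q`) -/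
def cY (p q r : Fin 2 → ℤ) (s : Fin 2 → ℝ) : ℝ :=
  (area p q r : ℝ) * (((q 0 : ℝ) - p 0) * (s 1 - p 1) - ((q 1 : ℝ) - p 1) * (s 0 - p 0))

theorem evR_bary {p q r : Fin 2 → ℤ} (h : |area p q r| = 1) (P : Fin 3 → ℤ) (s : Fin 2 → ℝ) :
    evR P s = (1 - cX p q r s - cY p q r s) * (ev P p : ℝ) + cX p q r s * (ev P q : ℝ)
      + cY p q r s * (ev P r : ℝ) := by
  have h2 : (area p q r : ℝ) * (area p q r : ℝ) = 1 := by
    have : area p q r * area p q r = 1 := by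
      rcases eq_or_eq_neg_of_abs_eq h with h | h <;> rw [h] <;> norm_num
    exact_mod_cast this
  have h3 : (area p q r : ℝ) = ((q 0 : ℝ) - p 0) * ((r 1 : ℝ) - p 1)
      - ((q 1 : ℝ) - p 1) * ((r 0 : ℝ) - p 0) := by
    simp [area]
  have e0 : s 0 - p 0 = cX p q r s * ((q 0 : ℝ) - p 0) + cY p q r s * ((r 0 : ℝ) - p 0) := by
    have : cX p q r s * ((q 0 : ℝ) - p 0) + cY p q r s * ((r 0 : ℝ) - p 0)
      = (area p q r : ℝ) * ((((q 0 : ℝ) - p 0) * ((r 1 : ℝ) - p 1)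
      - ((q 1 : ℝ) - p 1) * ((r 0 : ℝ) - p 0)) * (s 0 - p 0)) := by
      unfold cX cY
      ring
    rw [this, ← h3, ← mul_assoc, h2, one_mul]
  have e1 : s 1 - p 1 = cX p q r s * ((q 1 : ℝ) - p 1) + cY p q r s * ((r 1 : ℝ) - p 1) := by
    have : cX p q r s * ((q 1 : ℝ) - p 1) + cY p q r s * ((r 1 : ℝ) - p 1)
      = (area p q r : ℝ) * ((((q 0 : ℝ) - p 0) * ((r 1 : ℝ) - p 1)
      - ((q 1 : ℝ) - p 1) * ((r 0 : ℝ) - p 0)) * (s 1 - p 1)) := by
      unfold cX cY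
      ring
    rw [this, ← h3, ← mul_assoc, h2, one_mul]
  have f0 : s 0 = p 0 + (cX p q r s * ((q 0 : ℝ) - p 0) + cY p q r s * ((r 0 : ℝ) - p 0)) := by
    rw [← e0]; ring
  have f1 : s 1 = p 1 + (cX p q r s * ((q 1 : ℝ) - p 1) + cY p q r s * ((r 1 : ℝ) - p 1)) := by
    rw [← e1]; ring
  have f2 : evR P s = (P 0 : ℝ) * (p 0 + (cX p q r s * ((q 0 : ℝ) - p 0)
      + cY p q r s * ((r 0 : ℝ) - p 0))) + (P 1 : ℝ) * (p 1 + (cX p q r s * ((q 1 : ℝ) - p 1)
      + cY p q r s * ((r 1 : ℝ) - p 1))) + (P 2 : ℝ) := by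
    rw [← f0, ← f1]
    rfl
  rw [f2]
  simp only [ev]
  push_cast
  ring

/-- width in the first coordinate -/
theorem wide_X {m : ℕ} {F : Fin m → (Fin 3 → ℤ) × ℤ} (hw : Wide F) {p q r : Fin 2 → ℤ}
    (h : |area p q r| = 1) :
    ∃ x y : Fin 2 → ℝ, Inside F x ∧ Inside F y ∧ 2 ≤ cX p q r x - cX p q r y := by
  have hne : area p q r ≠ 0 := by
    intro h0
    rw [h0] at h
    norm_num at h
  obtain ⟨x, y, hx, hy, hxy⟩ := hw
    ![area p q r * (r 1 - p 1), -(area p q r * (r 0 - p 0))] (by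
      intro h0
      have a0 := congrFun h0 0
      have a1 := congrFun h0 1
      simp only [Matrix.cons_val_zero, Matrix.cons_val_one, Pi.zero_apply, neg_eq_zero,
        mul_eq_zero, hne, false_or] at a0 a1
      apply hne
      simp [area, a0, a1])
  refine ⟨x, y, hx, hy, ?_⟩
  have : cX p q r x - cX p q r y = ((![area p q r * (r 1 - p 1), -(area p q r * (r 0 - p 0))] :
      Fin 2 → ℤ) 0 : ℝ) * (x 0 - y 0)
      + ((![area p q r * (r 1 - p 1), -(area p q r * (r 0 - p 0))] :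
      Fin 2 → ℤ) 1 : ℝ) * (x 1 - y 1) := by
    simp [cX]
    ring
  rw [this]
  exact hxy

/-- width in the second coordinate -/
theorem wide_Y {m : ℕ} {F : Fin m → (Fin 3 → ℤ) × ℤ} (hw : Wide F) {p q r : Fin 2 → ℤ}
    (h : |area p q r| = 1) :
    ∃ x y : Fin 2 → ℝ, Inside F x ∧ Inside F y ∧ 2 ≤ cY p q r x - cY p q r y := by
  have hne : area p q r ≠ 0 := by
    intro h0
    rw [h0] at h
    norm_num at h
  obtain ⟨x, y, hx, hy, hxy⟩ := hw
    ![-(area p q r * (q 1 - p 1)), area p q r * (q 0 - p 0)] (by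
      intro h0
      have a0 := congrFun h0 0
      have a1 := congrFun h0 1
      simp only [Matrix.cons_val_zero, Matrix.cons_val_one, Pi.zero_apply, neg_eq_zero,
        mul_eq_zero, hne, false_or] at a0 a1
      apply hne
      simp [area, a0, a1])
  refine ⟨x, y, hx, hy, ?_⟩
  have : cY p q r x - cY p q r y = ((![-(area p q r * (q 1 - p 1)), area p q r * (q 0 - p 0)] :
      Fin 2 → ℤ) 0 : ℝ) * (x 0 - y 0)
      + ((![-(area p q r * (q 1 - p 1)), area p q r * (q 0 - p 0)] :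
      Fin 2 → ℤ) 1 : ℝ) * (x 1 - y 1) := by
    simp [cY]
    ring
  rw [this]
  exact hxy

end Helper84.ND
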