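import Mathlib

/-!
The quadrilateral lemma: a convex set in the interior of a quadrilateral through the corners of a
unit square has width less than two in one of the two coordinate directions.
-/

namespace Helper84.ND

/-- `s_i = p_i / q_i` form: the product of the excesses is at most one. -/
theorem excess {s1 s2 s3 s4 : ℝ} (h1 : 0 < s1) (h2 : 0 < s2) (h3 : 0 < s3) (h4 : 0 < s4) :
    (1 / (s2 + s3) + 1 / (s1 + s4)) * (s3 * s4 / (s3 + s4) + s1 * s2 / (s1 + s2)) ≤ 1 := by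
  have e : 1 - (1 / (s2 + s3) + 1 / (s1 + s4)) * (s3 * s4 / (s3 + s4) + s1 * s2 / (s1 + s2))
      = (s1 * s3 - s2 * s4) ^ 2 / ((s2 + s3) * (s1 + s4) * (s3 + s4) * (s1 + s2)) := by
    field_simp
    ring
  have : 0 ≤ (s1 * s3 - s2 * s4) ^ 2 / ((s2 + s3) * (s1 + s4) * (s3 + s4) * (s1 + s2)) := by
    positivity
  linarith

theorem quad_widths {p1 q1 p2 q2 p3 q3 p4 q4 : ℝ} (hp1 : 0 < p1) (hq1 : 0 < q1) (hp2 : 0 < p2)
    (hq2 : 0 < q2) (hp3 : 0 < p3) (hq3 : 0 < q3) (hp4 : 0 < p4) (hq4 : 0 < q4)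
    (I : ℝ → ℝ → Prop)
    (hI : ∀ X Y, I X Y → 0 < p1 * X + q1 * Y ∧ 0 < p2 * (1 - X) + q2 * Y ∧
      0 < p3 * (1 - X) + q3 * (1 - Y) ∧ 0 < p4 * X + q4 * (1 - Y))
    {X Y X' Y' U V U' V' : ℝ} (h1 : I X Y) (h2 : I X' Y') (h3 : I U V) (h4 : I U' V')
    (hx : 2 ≤ X - X') (hy : 2 ≤ V - V') : False := by
  obtain ⟨-, a2, a3, -⟩ := hI _ _ h1
  obtain ⟨b1, -, -, b4⟩ := hI _ _ h2
  obtain ⟨-, -, c3, c4⟩ := hI _ _ h3
  obtain ⟨d1, d2, -, -⟩ := hI _ _ h4
  set s1 := p1 / q1 with hs1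
  set s2 := p2 / q2 with hs2
  set s3 := p3 / q3 with hs3
  set s4 := p4 / q4 with hs4
  have k1 : 0 < s1 := div_pos hp1 hq1
  have k2 : 0 < s2 := div_pos hp2 hq2
  have k3 : 0 < s3 := div_pos hp3 hq3
  have k4 : 0 < s4 := div_pos hp4 hq4
  have e1 : p1 = s1 * q1 := by rw [hs1]; field_simp
  have e2 : p2 = s2 * q2 := by rw [hs2]; field_simp
  have e3 : p3 = s3 * q3 := by rw [hs3]; field_simp
  have e4 : p4 = s4 * q4 := by rw [hs4]; field_simp
  have hq : ∀ {q x : ℝ}, 0 < q → 0 < q * x → 0 < x := fun hq h => by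
    by_contra hc
    push Not at hc
    exact absurd h (not_lt.2 (mul_nonpos_of_nonneg_of_nonpos hq.le hc))
  have a2' : 0 < s2 * (1 - X) + Y := hq hq2 (by rw [e2] at a2; linarith)
  have a3' : 0 < s3 * (1 - X) + (1 - Y) := hq hq3 (by rw [e3] at a3; linarith)
  have b1' : 0 < s1 * X' + Y' := hq hq1 (by rw [e1] at b1; linarith)
  have b4' : 0 < s4 * X' + (1 - Y') := hq hq4 (by rw [e4] at b4; linarith)
  have c3' : 0 < s3 * (1 - U) + (1 - V) := hq hq3 (by rw [e3] at c3; linarith)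
  have c4' : 0 < s4 * U + (1 - V) := hq hq4 (by rw [e4] at c4; linarith)
  have d1' : 0 < s1 * U' + V' := hq hq1 (by rw [e1] at d1; linarith)
  have d2' : 0 < s2 * (1 - U') + V' := hq hq2 (by rw [e2] at d2; linarith)
  have r1 : X - 1 < 1 / (s2 + s3) := by
    rw [lt_div_iff₀ (by positivity)]
    linarith
  have r2 : -X' < 1 / (s1 + s4) := by
    rw [lt_div_iff₀ (by positivity)]
    linarith
  have r3 : V - 1 < s3 * s4 / (s3 + s4) := by
    rw [lt_div_iff₀ (by positivity)]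
    nlinarith [mul_pos k4 c3', mul_pos k3 c4']
  have r4 : -V' < s1 * s2 / (s1 + s2) := by
    rw [lt_div_iff₀ (by positivity)]
    nlinarith [mul_pos k2 d1', mul_pos k1 d2']
  have t1 : 1 < 1 / (s2 + s3) + 1 / (s1 + s4) := by linarith
  have t2 : 1 < s3 * s4 / (s3 + s4) + s1 * s2 / (s1 + s2) := by linarith
  have := excess k1 k2 k3 k4
  nlinarith

end Helper84.ND
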