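import Pool.Agent.Helper84.ND.Inside
import Pool.Agent.Helper84.ND.Quad
import Pool.Agent.Helper84.ND.Bary

/-!
A minimal family of four half planes is impossible: the touching points form a parallelogram of area
one and the quadrilateral has width less than two in one of the directions of its sides.
-/

namespace Helper84.ND

open Matrix Set Helper31.Ewald Helper15.NL

/-- labels such that `z a, z b, z c, z d` are the consecutive corners of a parallelogram -/
theorem case_four_labelled (F : Fin 4 → (Fin 3 → ℤ) × ℤ) (z : Fin 4 → Fin 2 → ℤ)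
    (ht : ∀ i, Touch F i (z i)) (hw : Wide F) {a b c d : Fin 4} (hab : a ≠ b) (hac : a ≠ c)
    (had : a ≠ d) (hbc : b ≠ c) (hbd : b ≠ d) (hcd : c ≠ d)
    (har : |area (z a) (z b) (z d)| = 1) (hpar : ∀ t, z a t + z c t = z b t + z d t) : False := by
  obtain ⟨x, x', hx, hx', hxx⟩ := wide_X hw har
  obtain ⟨y, y', hy, hy', hyy⟩ := wide_Y hw har
  have hev : ∀ P : Fin 3 → ℤ, ev P (z a) + ev P (z c) = ev P (z b) + ev P (z d) := by
    intro P
    unfold ev
    have h0 := hpar 0
    have h1 := hpar 1
    linear_combination P 0 * h0 + P 1 * h1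
  have hevR : ∀ P : Fin 3 → ℤ, (ev P (z a) : ℝ) + ev P (z c) = ev P (z b) + ev P (z d) := by
    intro P
    exact_mod_cast hev P
  have pos : ∀ i j : Fin 4, j ≠ i → 0 < ((F j).2 : ℝ) - (ev (F j).1 (z i) : ℝ) := by
    intro i j hji
    have h := (ht i).2 j hji
    have h' : (ev (F j).1 (z i) : ℝ) < ((F j).2 : ℝ) := by exact_mod_cast h
    linarith
  have tou : ∀ i : Fin 4, (ev (F i).1 (z i) : ℝ) = ((F i).2 : ℝ) := by
    intro i
    exact_mod_cast (ht i).1
  refine quad_widths (pos b a hab) (pos d a had) (pos a b hab.symm) (pos c b hbc)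
    (pos d c hcd) (pos b c hbc.symm) (pos c d hcd.symm) (pos a d had.symm)
    (fun X Y => ∃ s, Inside F s ∧ X = cX (z a) (z b) (z d) s ∧ Y = cY (z a) (z b) (z d) s)
    ?_ ⟨x, hx, rfl, rfl⟩ ⟨x', hx', rfl, rfl⟩ ⟨y, hy, rfl, rfl⟩ ⟨y', hy', rfl, rfl⟩ hxx hyy
  rintro X Y ⟨s, hs, rfl, rfl⟩
  refine ⟨?_, ?_, ?_, ?_⟩
  · have h1 := hs a
    rw [evR_bary har] at h1
    have h2 := tou a
    rw [h2] at h1
    linarith
  · have h1 := hs b
    rw [evR_bary har] at h1
    have h2 := tou b
    have h3 := hevR (F b).1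
    rw [h2] at h1 h3
    have h4 : (ev (F b).1 (z d) : ℝ) = ev (F b).1 (z a) + ev (F b).1 (z c) - (F b).2 := by
      linarith
    rw [h4] at h1
    linarith
  · have h1 := hs c
    rw [evR_bary har] at h1
    have h2 := tou c
    have h3 := hevR (F c).1
    rw [h2] at h3
    have h4 : (ev (F c).1 (z a) : ℝ) = ev (F c).1 (z b) + ev (F c).1 (z d) - (F c).2 := by
      linarith
    rw [h4] at h1
    linarith
  · have h1 := hs d
    rw [evR_bary har] at h1
    have h2 := tou d
    have h3 := hevR (F d).1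
    rw [h2] at h1 h3
    have h4 : (ev (F d).1 (z b) : ℝ) = ev (F d).1 (z a) + ev (F d).1 (z c) - (F d).2 := by
      linarith
    rw [h4] at h1
    linarith

theorem case_four (F : Fin 4 → (Fin 3 → ℤ) × ℤ) (z : Fin 4 → Fin 2 → ℤ) (hc : Cov F)
    (ht : ∀ i, Touch F i (z i)) (hw : Wide F) : False := by
  have e1 := area_unit hc ht (i := 0) (j := 1) (k := 2) (by decide) (by decide) (by decide)
  have e2 := area_unit hc ht (i := 0) (j := 1) (k := 3) (by decide) (by decide) (by decide)
  have e3 := area_unit hc ht (i := 0) (j := 2) (k := 3) (by decide) (by decide) (by decide)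
  have e4 := area_unit hc ht (i := 1) (j := 2) (k := 3) (by decide) (by decide) (by decide)
  have hid : ∀ t, area (z 0) (z 1) (z 2) * (z 3 t - z 0 t) =
      -area (z 0) (z 2) (z 3) * (z 1 t - z 0 t) + area (z 0) (z 1) (z 3) * (z 2 t - z 0 t) := by
    intro t
    fin_cases t
    · simp only [area, Fin.zero_eta]
      ring
    · simp only [area, Fin.mk_one]
      ring
  have hsum : area (z 1) (z 2) (z 3) =
      area (z 0) (z 2) (z 3) + area (z 0) (z 1) (z 2) - area (z 0) (z 1) (z 3) := by
    simp only [area]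
    ring
  have c1 := case_four_labelled F z ht hw (a := 0) (b := 1) (c := 3) (d := 2) (by decide)
    (by decide) (by decide) (by decide) (by decide) (by decide) e1
  have c2 := case_four_labelled F z ht hw (a := 0) (b := 2) (c := 1) (d := 3) (by decide)
    (by decide) (by decide) (by decide) (by decide) (by decide) e3
  have c3 := case_four_labelled F z ht hw (a := 0) (b := 1) (c := 2) (d := 3) (by decide)
    (by decide) (by decide) (by decide) (by decide) (by decide) e2
  rcases (abs_eq (by norm_num : (0 : ℤ) ≤ 1)).1 e1 with f1 | f1 <;>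
  rcases (abs_eq (by norm_num : (0 : ℤ) ≤ 1)).1 e2 with f2 | f2 <;>
  rcases (abs_eq (by norm_num : (0 : ℤ) ≤ 1)).1 e3 with f3 | f3 <;>
  rcases (abs_eq (by norm_num : (0 : ℤ) ≤ 1)).1 e4 with f4 | f4 <;>
  rw [f1, f2, f3, f4] at hsum <;>
  first
  | omega
  | exact c1 (fun t => by have h := hid t; rw [f1, f2, f3] at h; omega)
  | exact c2 (fun t => by have h := hid t; rw [f1, f2, f3] at h; omega)
  | exact c3 (fun t => by have h := hid t; rw [f1, f2, f3] at h; omega)

end Helper84.ND
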