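import Pool.Agent.Helper84.ND.Bary

/-!
A minimal family of three half planes is in pinwheel position.
-/

namespace Helper84.ND

open Matrix Set Helper31.Ewald Helper15.NL

/-- two functionals prefer each other's touching point and the third one is indifferent: width less
than two -/
theorem tie {m : ℕ} {F : Fin m → (Fin 3 → ℤ) × ℤ} {z : Fin m → Fin 2 → ℤ} (hc : Cov F)
    (ht : ∀ i, Touch F i (z i)) (hw : Wide F) {i j k : Fin m} (hij : i ≠ j) (hik : i ≠ k)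
    (hjk : j ≠ k) (h1 : ev (F i).1 (z k) < ev (F i).1 (z j))
    (h2 : ev (F j).1 (z k) < ev (F j).1 (z i)) (h3 : ev (F k).1 (z i) = ev (F k).1 (z j)) :
    False := by
  have har := area_unit hc ht hij hik hjk
  obtain ⟨x, y, hx, hy, hxy⟩ := wide_Y hw har
  have key : ∀ s, Inside F s → -1 < cY (z i) (z j) (z k) s ∧ cY (z i) (z j) (z k) s < 1 := by
    intro s hs
    have e1 := hs i
    have e2 := hs j
    have e3 := hs k
    rw [evR_bary har] at e1 e2 e3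
    obtain ⟨X, hX⟩ : ∃ X, X = cX (z i) (z j) (z k) s := ⟨_, rfl⟩
    obtain ⟨Y, hY⟩ : ∃ Y, Y = cY (z i) (z j) (z k) s := ⟨_, rfl⟩
    rw [← hX, ← hY] at e1 e2 e3
    rw [← hY]
    rw [(ht i).1] at e1
    rw [(ht j).1] at e2
    rw [(ht k).1, h3] at e3
    have g1 : ((ev (F i).1 (z k) : ℤ) : ℝ) < (ev (F i).1 (z j) : ℤ) := by exact_mod_cast h1
    have g2 : ((ev (F j).1 (z k) : ℤ) : ℝ) < (ev (F j).1 (z i) : ℤ) := by exact_mod_cast h2
    have g3 : ((ev (F i).1 (z j) : ℤ) : ℝ) < ((F i).2 : ℤ) := by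
      exact_mod_cast (ht j).2 i hij
    have g4 : ((ev (F j).1 (z i) : ℤ) : ℝ) < ((F j).2 : ℤ) := by
      exact_mod_cast (ht i).2 j hij.symm
    have g5 : ((ev (F k).1 (z j) : ℤ) : ℝ) < ((F k).2 : ℤ) := by
      exact_mod_cast (ht j).2 k hjk.symm
    generalize ((ev (F i).1 (z k) : ℤ) : ℝ) = aik at *
    generalize ((ev (F i).1 (z j) : ℤ) : ℝ) = aij at *
    generalize ((ev (F j).1 (z k) : ℤ) : ℝ) = ajk at *
    generalize ((ev (F j).1 (z i) : ℤ) : ℝ) = aji at *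
    generalize ((ev (F k).1 (z j) : ℤ) : ℝ) = akj at *
    generalize (((F i).2 : ℤ) : ℝ) = Ni at *
    generalize (((F j).2 : ℤ) : ℝ) = Nj at *
    generalize (((F k).2 : ℤ) : ℝ) = Nk at *
    -- Y < 1
    have hY1 : Y < 1 := by
      by_contra hcon
      push Not at hcon
      nlinarith
    refine ⟨?_, hY1⟩
    by_contra hcon
    push Not at hcon
    -- (Ni - aij) X + (Ni - aik) Y > 0, (Nj - aji) (1 - X) + (aji - ajk) Y > 0
    have f1 : 0 < (Ni - aij) * X + (Ni - aik) * Y := by linarith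
    have f2 : 0 < (Nj - aji) * (1 - X) + (aji - ajk) * Y := by linarith
    -- X > 1
    have hX1 : 1 < X := by
      by_contra hc2
      push Not at hc2
      nlinarith
    nlinarith
  have k1 := key x hx
  have k2 := key y hy
  linarith [k1.1, k1.2, k2.1, k2.2]

theorem refl_cov {m : ℕ} {F : Fin m → (Fin 3 → ℤ) × ℤ} (hc : Cov F) (p q r : Fin 2 → ℤ) :
    ∃ l, (F l).2 ≤ ev (F l).1 p + ev (F l).1 q - ev (F l).1 r := by
  obtain ⟨l, hl⟩ := hc (fun t => p t + q t - r t)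
  refine ⟨l, ?_⟩
  have : ev (F l).1 (fun t => p t + q t - r t)
      = ev (F l).1 p + ev (F l).1 q - ev (F l).1 r := by
    simp only [ev]
    ring
  rwa [this] at hl

theorem case_three (F : Fin 3 → (Fin 3 → ℤ) × ℤ) (z : Fin 3 → Fin 2 → ℤ) (hc : Cov F)
    (ht : ∀ i, Touch F i (z i)) (hw : Wide F) :
    (ev (F 0).1 (z 2) ≤ ev (F 0).1 (z 1) ∧ ev (F 1).1 (z 0) ≤ ev (F 1).1 (z 2) ∧
      ev (F 2).1 (z 1) ≤ ev (F 2).1 (z 0)) ∨
    (ev (F 0).1 (z 1) ≤ ev (F 0).1 (z 2) ∧ ev (F 1).1 (z 2) ≤ ev (F 1).1 (z 0) ∧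
      ev (F 2).1 (z 0) ≤ ev (F 2).1 (z 1)) := by
  have a00 := (ht 0).1
  have a11 := (ht 1).1
  have a22 := (ht 2).1
  have a01 := (ht 1).2 0 (by decide)
  have a02 := (ht 2).2 0 (by decide)
  have a10 := (ht 0).2 1 (by decide)
  have a12 := (ht 2).2 1 (by decide)
  have a20 := (ht 0).2 2 (by decide)
  have a21 := (ht 1).2 2 (by decide)
  have r2 : ev (F 0).1 (z 2) ≤ ev (F 0).1 (z 1) ∨ ev (F 1).1 (z 2) ≤ ev (F 1).1 (z 0) := by
    obtain ⟨l, hl⟩ := refl_cov hc (z 0) (z 1) (z 2)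
    fin_cases l
    · left
      have : (F 0).2 ≤ ev (F 0).1 (z 0) + ev (F 0).1 (z 1) - ev (F 0).1 (z 2) := hl
      linarith
    · right
      have : (F 1).2 ≤ ev (F 1).1 (z 0) + ev (F 1).1 (z 1) - ev (F 1).1 (z 2) := hl
      linarith
    · exfalso
      have : (F 2).2 ≤ ev (F 2).1 (z 0) + ev (F 2).1 (z 1) - ev (F 2).1 (z 2) := hl
      linarith
  have r0 : ev (F 1).1 (z 0) ≤ ev (F 1).1 (z 2) ∨ ev (F 2).1 (z 0) ≤ ev (F 2).1 (z 1) := by
    obtain ⟨l, hl⟩ := refl_cov hc (z 1) (z 2) (z 0)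
    fin_cases l
    · exfalso
      have : (F 0).2 ≤ ev (F 0).1 (z 1) + ev (F 0).1 (z 2) - ev (F 0).1 (z 0) := hl
      linarith
    · left
      have : (F 1).2 ≤ ev (F 1).1 (z 1) + ev (F 1).1 (z 2) - ev (F 1).1 (z 0) := hl
      linarith
    · right
      have : (F 2).2 ≤ ev (F 2).1 (z 1) + ev (F 2).1 (z 2) - ev (F 2).1 (z 0) := hl
      linarith
  have r1 : ev (F 2).1 (z 1) ≤ ev (F 2).1 (z 0) ∨ ev (F 0).1 (z 1) ≤ ev (F 0).1 (z 2) := by
    obtain ⟨l, hl⟩ := refl_cov hc (z 2) (z 0) (z 1)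
    fin_cases l
    · right
      have : (F 0).2 ≤ ev (F 0).1 (z 2) + ev (F 0).1 (z 0) - ev (F 0).1 (z 1) := hl
      linarith
    · exfalso
      have : (F 1).2 ≤ ev (F 1).1 (z 2) + ev (F 1).1 (z 0) - ev (F 1).1 (z 1) := hl
      linarith
    · left
      have : (F 2).2 ≤ ev (F 2).1 (z 2) + ev (F 2).1 (z 0) - ev (F 2).1 (z 1) := hl
      linarith
  have t012 := fun h1 h2 h3 => tie hc ht hw (i := 0) (j := 1) (k := 2) (by decide) (by decide)
    (by decide) h1 h2 h3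
  have t120 := fun h1 h2 h3 => tie hc ht hw (i := 1) (j := 2) (k := 0) (by decide) (by decide)
    (by decide) h1 h2 h3
  have t201 := fun h1 h2 h3 => tie hc ht hw (i := 2) (j := 0) (k := 1) (by decide) (by decide)
    (by decide) h1 h2 h3
  by_contra hcon
  push Not at hcon
  obtain ⟨hA, hB⟩ := hcon
  rcases lt_trichotomy (ev (F 0).1 (z 2)) (ev (F 0).1 (z 1)) with h0 | h0 | h0 <;>
  rcases lt_trichotomy (ev (F 1).1 (z 0)) (ev (F 1).1 (z 2)) with h1 | h1 | h1 <;>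
  rcases lt_trichotomy (ev (F 2).1 (z 1)) (ev (F 2).1 (z 0)) with h2 | h2 | h2 <;>
  first
    | exact absurd (hA h0.le h1.le) (by omega)
    | exact absurd (hB h0.le h1.le) (by omega)
    | omega
    | exact t012 h0 h1 h2.symm
    | exact t120 h1 h2 h0.symm
    | exact t201 h2 h0 h1.symm

end Helper84.ND
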