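import Pool.Agent.Helper84.ND.CaseTwo
import Pool.Agent.Helper84.ND.CaseThree
import Pool.Agent.Helper84.ND.CaseFour
import Pool.Agent.Helper15.NL.Slice2

/-!
The planar step: `Helper15.NL.Type3`.
-/

namespace Helper84.ND

open Matrix Set Helper31.Ewald Helper15.NL

variable {K : Set (Fin 3 → ℝ)} {W : (Fin 3 → ℝ) → ℝ}

theorem case_one (hK : SBody K) (hW : Supp K W) (hz : ∀ z : Fin 3 → ℤ, z ≠ 0 → 2 ≤ W (toR z))
    (F : Fin 1 → (Fin 3 → ℤ) × ℤ) (z : Fin 1 → Fin 2 → ℤ) (hF : Good W F) (hc : Cov F)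
    (ht : ∀ i, Touch F i (z i)) : False := by
  have hN := hW.normD hK
  have h1 : ∀ w : Fin 2 → ℤ, ev (F 0).1 w = (F 0).2 := by
    intro w
    have h2 : (F 0).2 ≤ ev (F 0).1 w := by
      obtain ⟨i, hi⟩ := hc w
      fin_cases i
      exact hi
    obtain ⟨l, hl⟩ := refl_cov hc (z 0) (z 0) w
    fin_cases l
    have hl' : (F 0).2 ≤ ev (F 0).1 (z 0) + ev (F 0).1 (z 0) - ev (F 0).1 w := hl
    have := (ht 0).1
    linarith
  have e0 := h1 ![0, 0]
  have e1 := h1 ![1, 0]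
  have e2 := h1 ![0, 1]
  simp [ev] at e0 e1 e2
  have g0 : (F 0).1 0 = 0 := by linarith
  have g1 : (F 0).1 1 = 0 := by linarith
  have h2 : toR (F 0).1 = ((F 0).2 : ℝ) • toR (![0, 0, 1] : Fin 3 → ℤ) := by
    funext i
    fin_cases i
    · simp [toR, g0]
    · simp [toR, g1]
    · simp [toR, e0]
  have h3 := hF 0
  have h4 := hN.nonneg (toR (F 0).1)
  have h5 : (0 : ℝ) < ((F 0).2 : ℝ) := lt_of_le_of_lt h4 h3
  rw [h2, hN.smul, abs_of_pos h5] at h3
  have h6 := hz ![0, 0, 1] (by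
    intro h
    have := congrFun h 2
    simp at this)
  nlinarith

/-- lattice vectors of height one -/
def lift (z : Fin 2 → ℤ) : Fin 3 → ℤ := ![z 0, z 1, 1]

theorem dot_lift (P : Fin 3 → ℤ) (z : Fin 2 → ℤ) : P ⬝ᵥ lift z = ev P z := ev_eq P z

/-- the dual basis of a unimodular triangle at height one -/
theorem dual {p q r : Fin 2 → ℤ} (h : |area p q r| = 1) :
    ∃ E : Fin 3 → Fin 3 → ℤ, (∀ s, ev (E 0) s = 1 - area p q r * area p s r - area p q r * area p q s)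
      ∧ (∀ s, ev (E 1) s = area p q r * area p s r) ∧ (∀ s, ev (E 2) s = area p q r * area p q s) := by
  refine ⟨![![-(area p q r * (r 1 - p 1)) + area p q r * (q 1 - p 1),
      area p q r * (r 0 - p 0) - area p q r * (q 0 - p 0),
      1 + area p q r * (p 0 * (r 1 - p 1) - p 1 * (r 0 - p 0))
        + area p q r * ((q 0 - p 0) * p 1 - (q 1 - p 1) * p 0)],
    ![area p q r * (r 1 - p 1), -(area p q r * (r 0 - p 0)),
      -(area p q r * (p 0 * (r 1 - p 1) - p 1 * (r 0 - p 0)))],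
    ![-(area p q r * (q 1 - p 1)), area p q r * (q 0 - p 0),
      -(area p q r * ((q 0 - p 0) * p 1 - (q 1 - p 1) * p 0))]], ?_, ?_, ?_⟩
  · intro s
    simp only [ev, Matrix.cons_val_zero, Matrix.cons_val_one, Matrix.cons_val]
    simp only [show ∀ s, area p s r = (s 0 - p 0) * (r 1 - p 1) - (s 1 - p 1) * (r 0 - p 0) from
      fun _ => rfl, show ∀ s, area p q s = (q 0 - p 0) * (s 1 - p 1) - (q 1 - p 1) * (s 0 - p 0) from
      fun _ => rfl]
    ring
  · intro s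
    simp only [ev, Matrix.cons_val_zero, Matrix.cons_val_one, Matrix.cons_val]
    simp only [show ∀ s, area p s r = (s 0 - p 0) * (r 1 - p 1) - (s 1 - p 1) * (r 0 - p 0) from
      fun _ => rfl]
    ring
  · intro s
    simp only [ev, Matrix.cons_val_zero, Matrix.cons_val_one, Matrix.cons_val]
    simp only [show ∀ s, area p q s = (q 0 - p 0) * (s 1 - p 1) - (q 1 - p 1) * (s 0 - p 0) from
      fun _ => rfl]
    ring

theorem finish (z : Fin 3 → Fin 2 → ℤ) (P : Fin 3 → Fin 3 → ℤ) (N : Fin 3 → ℤ)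
    (har : |area (z 0) (z 1) (z 2)| = 1) (hP : ∀ i, W (toR (P i)) < N i)
    (hii : ∀ i, ev (P i) (z i) = N i) (hij : ∀ i j, i ≠ j → ev (P i) (z j) < N i)
    (p0 : ev (P 0) (z 2) ≤ ev (P 0) (z 1)) (p1 : ev (P 1) (z 0) ≤ ev (P 1) (z 2))
    (p2 : ev (P 2) (z 1) ≤ ev (P 2) (z 0)) :
    ∃ (x E P : Fin 3 → Fin 3 → ℤ) (Q : Fin 3 → ℤ),
      (∀ j, x j 2 = 1) ∧ (∀ i j, E i ⬝ᵥ x j = if i = j then 1 else 0) ∧
      (∀ i, W (toR (P i)) < Q i) ∧ (∀ i, P i ⬝ᵥ x i = Q i) ∧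
      (∀ i j, i ≠ j → P i ⬝ᵥ x j < Q i) ∧
      P 0 ⬝ᵥ x 2 ≤ P 0 ⬝ᵥ x 1 ∧ P 1 ⬝ᵥ x 0 ≤ P 1 ⬝ᵥ x 2 ∧ P 2 ⬝ᵥ x 1 ≤ P 2 ⬝ᵥ x 0 := by
  obtain ⟨E, hE0, hE1, hE2⟩ := dual har
  have hD : area (z 0) (z 1) (z 2) * area (z 0) (z 1) (z 2) = 1 := by
    rcases eq_or_eq_neg_of_abs_eq har with h | h <;> rw [h] <;> norm_num
  have k1 : ∀ p r : Fin 2 → ℤ, area p p r = 0 := fun p r => by simp [area]
  have k2 : ∀ p r : Fin 2 → ℤ, area p r r = 0 := fun p r => by simp only [area]; ring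
  have k3 : ∀ p q : Fin 2 → ℤ, area p q p = 0 := fun p q => by simp only [area]; ring
  refine ⟨fun j => lift (z j), E, P, N, fun j => rfl, ?_, hP, ?_, ?_, ?_, ?_, ?_⟩
  · intro i j
    rw [dot_lift]
    fin_cases i <;> fin_cases j <;>
      simp [hE0, hE1, hE2, k1, k2, k3, hD]
  · intro i
    rw [dot_lift]
    exact hii i
  · intro i j h
    rw [dot_lift]
    exact hij i j h
  · rw [dot_lift, dot_lift]; exact p0
  · rw [dot_lift, dot_lift]; exact p1
  · rw [dot_lift, dot_lift]; exact p2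

theorem type3 : Type3 := by
  intro K W hK hW hz hwid hno
  obtain ⟨m, F, z, hF, hc, ht⟩ := exists_touch hK hW (fun x hx h => hno x h hx)
  have hw : Wide F := wide_of hW hF hwid
  have hm := card_le_four hc ht
  rcases m with _ | _ | _ | _ | _ | m
  · obtain ⟨i, -⟩ := hc 0
    exact i.elim0
  · exact (case_one hK hW hz F z hF hc ht).elim
  · exact (case_two F z hc ht hw).elim
  · have har : |area (z 0) (z 1) (z 2)| = 1 :=
      area_unit hc ht (by decide) (by decide) (by decide)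
    rcases case_three F z hc ht hw with ⟨h0, h1, h2⟩ | ⟨h0, h1, h2⟩
    · exact finish z (fun i => (F i).1) (fun i => (F i).2) har hF (fun i => (ht i).1)
        (fun i j h => (ht j).2 i h) h0 h1 h2
    · have har' : |area (z 0) (z 2) (z 1)| = 1 :=
        area_unit hc ht (by decide) (by decide) (by decide)
      have hσ : Function.Injective (![0, 2, 1] : Fin 3 → Fin 3) := by decide
      exact finish (fun i => z ((![0, 2, 1] : Fin 3 → Fin 3) i))
        (fun i => (F ((![0, 2, 1] : Fin 3 → Fin 3) i)).1)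
        (fun i => (F ((![0, 2, 1] : Fin 3 → Fin 3) i)).2) har' (fun i => hF _)
        (fun i => (ht _).1) (fun i j h => (ht _).2 _ (fun h' => h (hσ h'))) h0 h2 h1
  · exact (case_four F z hc ht hw).elim
  · omega

end Helper84.ND
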