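import Pool.Agent.Helper84.ND.Inside

/-!
A minimal family of two half planes is impossible: the slice would lie in a strip of width one.
-/

namespace Helper84.ND

open Matrix Set Helper31.Ewald Helper15.NL

theorem case_two (F : Fin 2 → (Fin 3 → ℤ) × ℤ) (z : Fin 2 → Fin 2 → ℤ) (hc : Cov F)
    (ht : ∀ i, Touch F i (z i)) (hw : Wide F) : False := by
  obtain ⟨a0, a1⟩ := ht 0
  have a2 := a1 1 (by decide)
  obtain ⟨b0, b1⟩ := ht 1
  have b2 := b1 0 (by decide)
  clear a1 b1 ht
  unfold ev at a0 a2 b0 b2
  set p := (F 0).1 with hp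
  set q := (F 1).1 with hq
  set n := (F 0).2 with hn
  set k := (F 1).2 with hk
  have hc' : ∀ x y : ℤ, n ≤ p 0 * x + p 1 * y + p 2 ∨ k ≤ q 0 * x + q 1 * y + q 2 := by
    intro x y
    obtain ⟨i, hi⟩ := hc ![x, y]
    unfold ev at hi
    fin_cases i
    · left; simpa using hi
    · right; simpa using hi
  by_cases hD : p 0 * q 1 - p 1 * q 0 = 0
  · -- parallel
    have hne : 0 < Int.gcd (p 0) (p 1) := by
      rw [Int.gcd_pos_iff]
      by_contra hcon
      push Not at hcon
      rw [hcon.1, hcon.2] at a0 b2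
      linarith
    obtain ⟨g0, g1, hg, e0, e1⟩ := Int.exists_gcd_one hne
    set d : ℤ := (Int.gcd (p 0) (p 1) : ℤ) with hd
    have hd0 : 0 < d := Int.natCast_pos.2 hne
    obtain ⟨u, v, huv⟩ := Int.isCoprime_iff_gcd_eq_one.2 hg
    set β : ℤ := u * q 0 + v * q 1 with hβ
    have hpar : g0 * q 1 = g1 * q 0 := by
      have h1 : d * (g0 * q 1 - g1 * q 0) = 0 := by
        rw [e0, e1] at hD
        linarith
      rcases mul_eq_zero.1 h1 with h | h
      · exact absurd h hd0.ne'
      · linarith
    have f0 : q 0 = g0 * β := by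
      rw [hβ]
      linear_combination (-(q 0)) * huv - v * hpar
    have f1 : q 1 = g1 * β := by
      rw [hβ]
      linear_combination (-(q 1)) * huv + u * hpar
    -- values along g
    set t0 : ℤ := g0 * z 0 0 + g1 * z 0 1 with ht0
    set t1 : ℤ := g0 * z 1 0 + g1 * z 1 1 with ht1
    have a0' : d * t0 + p 2 = n := by rw [← a0, e0, e1, ht0]; ring
    have a2' : β * t0 + q 2 < k := by
      have : β * t0 + q 2 = q 0 * z 0 0 + q 1 * z 0 1 + q 2 := by rw [f0, f1, ht0]; ring
      linarith
    have b0' : β * t1 + q 2 = k := by rw [← b0, f0, f1, ht1]; ring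
    have b2' : d * t1 + p 2 < n := by
      have : d * t1 + p 2 = p 0 * z 1 0 + p 1 * z 1 1 + p 2 := by rw [e0, e1, ht1]; ring
      linarith
    have hcov : ∀ t : ℤ, n ≤ d * t + p 2 ∨ k ≤ β * t + q 2 := by
      intro t
      have e2 : p 0 * (u * t) + p 1 * (v * t) + p 2 = d * t + p 2 := by
        rw [e0, e1]
        linear_combination (d * t) * huv
      have e3 : q 0 * (u * t) + q 1 * (v * t) + q 2 = β * t + q 2 := by
        rw [f0, f1]
        linear_combination (β * t) * huv
      have := hc' (u * t) (v * t)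
      rwa [e2, e3] at this
    have h10 : t1 < t0 := by
      by_contra h
      push Not at h
      have h2 := mul_le_mul_of_nonneg_left h hd0.le
      linarith
    rcases hcov (t0 - 1) with h | h
    · linarith
    have hβneg : β < 0 := by
      by_contra hcon
      push Not at hcon
      linarith
    have h1 : t0 - 1 ≤ t1 := by
      by_contra h'
      push Not at h'
      have h2 := mul_le_mul_of_nonpos_left h'.le hβneg.le
      have h3 := mul_lt_mul_of_neg_left h' hβneg
      linarith
    obtain ⟨x, y, hx, hy, hxy⟩ := hw ![g0, g1] (by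
      intro h0
      have h2 := congrFun h0 0
      have h3 := congrFun h0 1
      simp at h2 h3
      rw [h2, h3] at hg
      simp at hg)
    have hx0 := hx 0
    have hy1 := hy 1
    unfold evR at hx0 hy1
    rw [← hp, ← hn, e0, e1] at hx0
    rw [← hq, ← hk, f0, f1] at hy1
    simp only [Matrix.cons_val_zero, Matrix.cons_val_one] at hxy
    push_cast at hx0 hy1
    have r0 : (d : ℝ) * t0 + p 2 = n := by exact_mod_cast a0'
    have r1 : (β : ℝ) * t1 + q 2 = k := by exact_mod_cast b0'
    have r2 : (0 : ℝ) < d := by exact_mod_cast hd0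
    have r3 : (β : ℝ) < 0 := by exact_mod_cast hβneg
    have r4 : (t0 : ℝ) - 1 ≤ t1 := by exact_mod_cast h1
    have s0 : (g0 : ℝ) * x 0 + g1 * x 1 < t0 := by
      by_contra h'
      push Not at h'
      have h2 := mul_le_mul_of_nonneg_left h' r2.le
      linarith
    have s1 : (t1 : ℝ) < g0 * y 0 + g1 * y 1 := by
      by_contra h'
      push Not at h'
      have h2 := mul_le_mul_of_nonpos_left h' r3.le
      linarith
    linarith
  · rcases lt_or_gt_of_ne hD with h | h
    · rcases hc' (z 0 0 + (q 1 - p 1)) (z 0 1 + (p 0 - q 0)) with h1 | h1 <;> linarith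
    · rcases hc' (z 0 0 - (q 1 - p 1)) (z 0 1 - (p 0 - q 0)) with h1 | h1 <;> linarith

end Helper84.ND
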