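import Pool.Agent.Helper84.ND.Family

/-!
The touching points of a minimal family are distinct modulo two (so there are at most four) and any
three of them form a unimodular triangle.
-/

namespace Helper84.ND

open Matrix Set Helper31.Ewald Helper15.NL

/-- twice the oriented area of a triangle -/
def area (p q r : Fin 2 → ℤ) : ℤ :=
  (q 0 - p 0) * (r 1 - p 1) - (q 1 - p 1) * (r 0 - p 0)

section
variable {m : ℕ} {F : Fin m → (Fin 3 → ℤ) × ℤ} {z : Fin m → (Fin 2 → ℤ)}

theorem Touch.le (hz : ∀ i, Touch F i (z i)) (i j : Fin m) : ev (F j).1 (z i) ≤ (F j).2 := by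
  by_cases h : j = i
  · rw [h]; exact (hz i).1.le
  · exact ((hz i).2 j h).le

/-- a lattice point in the triangle of three touching points is a vertex -/
theorem empty (hc : Cov F) (hz : ∀ i, Touch F i (z i)) {i j k : Fin m} (hij : i ≠ j) (hik : i ≠ k)
    (hjk : j ≠ k) {p q r D : ℤ} (hp : 0 ≤ p) (hq : 0 ≤ q) (hr : 0 ≤ r) (hD : p + q + r = D)
    (hpD : p < D) (hqD : q < D) (hrD : r < D) (w : Fin 2 → ℤ)
    (hw : ∀ t, D * w t = p * z i t + q * z j t + r * z k t) : False := by
  obtain ⟨l, hl⟩ := hc w
  have h1 : D * ev (F l).1 w = p * ev (F l).1 (z i) + q * ev (F l).1 (z j)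
      + r * ev (F l).1 (z k) := by
    have h0 := hw 0
    have h1 := hw 1
    simp only [ev]
    linear_combination (F l).1 0 * h0 + (F l).1 1 * h1 - (F l).1 2 * hD
  have hDpos : 0 < D := by omega
  have e1 := Touch.le hz i l
  have e2 := Touch.le hz j l
  have e3 := Touch.le hz k l
  have h2 : D * (F l).2 ≤ D * ev (F l).1 w := mul_le_mul_of_nonneg_left hl hDpos.le
  have hsum : p * ((F l).2 - ev (F l).1 (z i)) + q * ((F l).2 - ev (F l).1 (z j))
      + r * ((F l).2 - ev (F l).1 (z k)) ≤ 0 := by
    have : p * ((F l).2 - ev (F l).1 (z i)) + q * ((F l).2 - ev (F l).1 (z j))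
      + r * ((F l).2 - ev (F l).1 (z k)) = D * (F l).2 - D * ev (F l).1 w := by
      rw [h1, ← hD]; ring
    linarith
  have g1 : 0 ≤ p * ((F l).2 - ev (F l).1 (z i)) := mul_nonneg hp (by linarith)
  have g2 : 0 ≤ q * ((F l).2 - ev (F l).1 (z j)) := mul_nonneg hq (by linarith)
  have g3 : 0 ≤ r * ((F l).2 - ev (F l).1 (z k)) := mul_nonneg hr (by linarith)
  have key : ∀ {a b : Fin m} {s : ℤ}, l ≠ a → 0 ≤ s →
      s * ((F l).2 - ev (F l).1 (z a)) ≤ 0 → s = 0 := by
    intro a b s hla hs h
    have h3 := (hz a).2 l hla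
    by_contra hne
    have hs' : 0 < s := lt_of_le_of_ne hs (Ne.symm hne)
    have := mul_pos hs' (by linarith : 0 < (F l).2 - ev (F l).1 (z a))
    linarith
  by_cases hli : l = i
  · have a1 := key (a := j) (b := j) (by rw [hli]; exact hij) hq (by linarith)
    have a2 := key (a := k) (b := k) (by rw [hli]; exact hik) hr (by linarith)
    omega
  · have a0 := key (a := i) (b := i) hli hp (by linarith)
    by_cases hlj : l = j
    · have a2 := key (a := k) (b := k) (by rw [hlj]; exact hjk) hr (by linarith)
      omega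
    · have a1 := key (a := j) (b := j) hlj hq (by linarith)
      omega

/-- touching points are distinct modulo two -/
theorem parity (hc : Cov F) (hz : ∀ i, Touch F i (z i)) {i j : Fin m} (hij : i ≠ j)
    (h : ∀ t, (2 : ℤ) ∣ z i t + z j t) : False := by
  choose w hw using h
  obtain ⟨l, hl⟩ := hc w
  have h1 : 2 * ev (F l).1 w = ev (F l).1 (z i) + ev (F l).1 (z j) := by
    have h0 := hw 0
    have h1 := hw 1
    simp only [ev]
    linear_combination -(F l).1 0 * h0 - (F l).1 1 * h1
  have e1 := Touch.le hz i l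
  have e2 := Touch.le hz j l
  by_cases hli : l = i
  · have := (hz j).2 l (by rw [hli]; exact hij)
    omega
  · have := (hz i).2 l hli
    omega

theorem card_le_four (hc : Cov F) (hz : ∀ i, Touch F i (z i)) : m ≤ 4 := by
  have hinj : Function.Injective (fun (i : Fin m) (t : Fin 2) => ((z i t : ℤ) : ZMod 2)) := by
    intro i j hij
    by_contra hne
    apply parity hc hz hne
    intro t
    have h1 : ((z i t : ℤ) : ZMod 2) = ((z j t : ℤ) : ZMod 2) := congrFun hij t
    have h2 : (((z i t + z j t : ℤ)) : ZMod 2) = 0 := by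
      push_cast
      rw [h1]
      have : ∀ a : ZMod 2, a + a = 0 := by decide
      exact this _
    exact (ZMod.intCast_zmod_eq_zero_iff_dvd _ 2).1 h2
  have := Fintype.card_le_of_injective _ hinj
  simpa using this

theorem area_odd (hc : Cov F) (hz : ∀ i, Touch F i (z i)) {i j k : Fin m} (hij : i ≠ j)
    (hik : i ≠ k) (hjk : j ≠ k) : Odd (area (z i) (z j) (z k)) := by
  rw [← Int.not_even_iff_odd]
  intro he
  have h1 : ∀ {a b : Fin m}, a ≠ b → ¬ (Even (z a 0 + z b 0) ∧ Even (z a 1 + z b 1)) := by
    intro a b hab h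
    apply parity hc hz hab
    intro t
    fin_cases t
    · exact h.1.two_dvd
    · exact h.2.two_dvd
  have e1 := h1 hij
  have e2 := h1 hik
  have e3 := h1 hjk
  rw [area] at he
  simp only [Int.even_add, Int.even_sub, Int.even_mul] at he e1 e2 e3
  tauto

/-- three touching points form a unimodular triangle -/
theorem area_unit (hc : Cov F) (hz : ∀ i, Touch F i (z i)) {i j k : Fin m} (hij : i ≠ j)
    (hik : i ≠ k) (hjk : j ≠ k) : |area (z i) (z j) (z k)| = 1 := by
  set d : ℤ := area (z i) (z j) (z k) with hd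
  have hdodd : Odd d := area_odd hc hz hij hik hjk
  have hd0 : d ≠ 0 := by
    intro h
    rw [h] at hdodd
    exact absurd hdodd (by decide)
  set D : ℤ := |d| with hD
  have hDpos : 0 < D := abs_pos.2 hd0
  obtain ⟨s, hs, hsd⟩ : ∃ s : ℤ, (s = 1 ∨ s = -1) ∧ D = s * d := by
    rcases abs_choice d with h | h
    · exact ⟨1, Or.inl rfl, by rw [hD, h, one_mul]⟩
    · exact ⟨-1, Or.inr rfl, by rw [hD, h]; ring⟩
  -- barycentric numerators
  have main : ∀ w : Fin 2 → ℤ, D ∣ s * area (z i) w (z k) ∧ D ∣ s * area (z i) (z j) w := by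
    intro w
    set al : ℤ := s * area (z i) w (z k) with hal
    set be : ℤ := s * area (z i) (z j) w with hbe
    have hbar : ∀ t, D * (w t - z i t) = al * (z j t - z i t) + be * (z k t - z i t) := by
      intro t
      rw [hsd, hal, hbe, hd]
      fin_cases t
      · simp only [area]
        simp
        ring
      · simp only [area]
        simp
        ring
    set a : ℤ := al % D with ha
    set b : ℤ := be % D with hb
    have ha0 : 0 ≤ a := Int.emod_nonneg _ hDpos.ne'
    have hb0 : 0 ≤ b := Int.emod_nonneg _ hDpos.ne'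
    have haD : a < D := Int.emod_lt_of_pos _ hDpos
    have hbD : b < D := Int.emod_lt_of_pos _ hDpos
    have hae : al = D * (al / D) + a := (Int.mul_ediv_add_emod al D).symm
    have hbe' : be = D * (be / D) + b := (Int.mul_ediv_add_emod be D).symm
    set w' : Fin 2 → ℤ := fun t => w t - (al / D) * (z j t - z i t) - (be / D) * (z k t - z i t)
      with hw'
    have hbar' : ∀ t, D * (w' t - z i t) = a * (z j t - z i t) + b * (z k t - z i t) := by
      intro t
      have := hbar t
      have e1 : a = al - D * (al / D) := by linarith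
      have e2 : b = be - D * (be / D) := by linarith
      rw [e1, e2]
      simp only [hw']
      linear_combination this
    by_cases hab : a = 0 ∧ b = 0
    · exact ⟨Int.dvd_of_emod_eq_zero hab.1, Int.dvd_of_emod_eq_zero hab.2⟩
    · exfalso
      have hpos : 0 < a + b := by omega
      rcases le_or_gt (a + b) D with hle | hgt
      · exact empty hc hz hij hik hjk (p := D - a - b) (q := a) (r := b) (D := D) (by omega) ha0
          hb0 (by ring) (by omega) haD hbD w' (fun t => by linear_combination hbar' t)
      · refine empty hc hz hij hik hjk (p := a + b - D) (q := D - a) (r := D - b) (D := D)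
          (by omega) (by omega) (by omega) (by ring) (by omega) (by omega) (by omega)
          (fun t => z j t + z k t - w' t) (fun t => by linear_combination -hbar' t)
  -- now `D²` divides `d`
  have h1 := main (fun t => z i t + if t = 0 then 1 else 0)
  have h2 := main (fun t => z i t + if t = 1 then 1 else 0)
  have hsu : ∀ x : ℤ, D ∣ s * x → D ∣ x := by
    intro x hx
    rcases hs with rfl | rfl
    · simpa using hx
    · simpa using hx
  have k1 := hsu _ h1.1
  have k2 := hsu _ h1.2
  have k3 := hsu _ h2.1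
  have k4 := hsu _ h2.2
  simp only [area] at k1 k2 k3 k4
  simp at k1 k2 k3 k4
  have hdd : D * D ∣ d := by
    obtain ⟨c1, hc1⟩ := k1
    obtain ⟨c2, hc2⟩ := k2
    obtain ⟨c3, hc3⟩ := k3
    obtain ⟨c4, hc4⟩ := k4
    rw [hd, area]
    refine ⟨c4 * c1 - c2 * c3, ?_⟩
    have e2 : z j 1 - z i 1 = -(D * c2) := by linarith
    have e3 : z k 0 - z i 0 = -(D * c3) := by linarith
    rw [hc1, e2, e3, hc4]
    ring
  have h3 : D * D ∣ D := by
    have h4 : D * D ∣ s * d := Dvd.dvd.mul_left hdd s
    rwa [← hsd] at h4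
  obtain ⟨c, hcc⟩ := h3
  have h5 : D * c = 1 := by
    have : D * (D * c) = D * 1 := by rw [mul_one, ← mul_assoc, ← hcc]
    exact mul_left_cancel₀ hDpos.ne' this
  exact Int.eq_one_of_mul_eq_one_right hDpos.le h5

end

end Helper84.ND
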