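import Pool.Agent.Helper15.NL.SuppFn

/-!
The planar Doignon step of the slice property with constant two (`MP_5412de_co`).

A symmetric convex body `K ⊂ ℝ³` without lattice point of height one is separated from all lattice
points `(z, 1)` by finitely many integer pairs `(P, N)` with `W P < N ≤ P ⬝ (z, 1)`.  A family of
minimal size can be pushed out until every member touches: `P_i ⬝ (z_i, 1) = N_i` and
`P_j ⬝ (z_i, 1) < N_j` for `j ≠ i`.
-/

namespace Helper84.ND

open Matrix Set Helper31.Ewald Helper15.NL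

/-- value of the integer functional `P` at the point `(z, 1)` -/
def ev (P : Fin 3 → ℤ) (z : Fin 2 → ℤ) : ℤ := P 0 * z 0 + P 1 * z 1 + P 2

/-- a family of pairs `(P, N)` with `W P < N` -/
def Good (W : (Fin 3 → ℝ) → ℝ) {m : ℕ} (F : Fin m → (Fin 3 → ℤ) × ℤ) : Prop :=
  ∀ i, W (toR (F i).1) < ((F i).2 : ℝ)

/-- every lattice point is violated -/
def Cov {m : ℕ} (F : Fin m → (Fin 3 → ℤ) × ℤ) : Prop :=
  ∀ z : Fin 2 → ℤ, ∃ i, (F i).2 ≤ ev (F i).1 z

/-- `z` lies on the boundary of the `i`-th half plane and in the interior of the others -/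
def Touch {m : ℕ} (F : Fin m → (Fin 3 → ℤ) × ℤ) (i : Fin m) (z : Fin 2 → ℤ) : Prop :=
  ev (F i).1 z = (F i).2 ∧ ∀ j, j ≠ i → ev (F j).1 z < (F j).2

variable {K : Set (Fin 3 → ℝ)} {W : (Fin 3 → ℝ) → ℝ}

theorem toR_dot (P x : Fin 3 → ℤ) : toR P ⬝ᵥ toR x = ((P ⬝ᵥ x : ℤ) : ℝ) := by
  simp [toR, dotProduct, Fin.sum_univ_three]

theorem ev_eq (P : Fin 3 → ℤ) (z : Fin 2 → ℤ) : P ⬝ᵥ ![z 0, z 1, 1] = ev P z := by
  simp [ev, dotProduct, Fin.sum_univ_three]

/-- integer separation -/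
theorem sep (hK : SBody K) (hW : Supp K W) (x : Fin 3 → ℤ) (hx : toR x ∉ K) :
    ∃ P : Fin 3 → ℤ, W (toR P) < ((P ⬝ᵥ x : ℤ) : ℝ) := by
  have hN := hW.normD hK
  have h1 : ∃ y, W y < y ⬝ᵥ toR x := by
    by_contra hc
    push Not at hc
    exact hx (hW.mem hK hc)
  obtain ⟨y, hy⟩ := h1
  set C : ℝ := W (Pi.single 0 1) + W (Pi.single 1 1) + W (Pi.single 2 1) with hC
  set B : ℝ := ∑ i, |(x i : ℝ)| with hB
  have hδ : 0 < y ⬝ᵥ toR x - W y := by linarith
  obtain ⟨n, hn⟩ := exists_nat_gt ((C + B) / (y ⬝ᵥ toR x - W y))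
  rw [div_lt_iff₀ hδ] at hn
  set P : Fin 3 → ℤ := fun i => ⌊(n : ℝ) * y i⌋ with hP
  set t : Fin 3 → ℝ := fun i => Int.fract ((n : ℝ) * y i) with ht
  have ht0 : ∀ i, |t i| ≤ 1 := fun i => by
    rw [ht]
    show |Int.fract ((n : ℝ) * y i)| ≤ 1
    rw [abs_of_nonneg (Int.fract_nonneg _)]
    exact (Int.fract_lt_one _).le
  have hPt : toR P = (n : ℝ) • y + (-1 : ℝ) • t := by
    funext i
    simp only [toR, hP, ht, Pi.add_apply, Pi.smul_apply, smul_eq_mul]
    have := Int.floor_add_fract ((n : ℝ) * y i)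
    linarith
  have hWt : W t ≤ C := by
    have h2 : t = t 0 • Pi.single 0 (1 : ℝ) + t 1 • Pi.single 1 (1 : ℝ)
        + t 2 • Pi.single 2 (1 : ℝ) := by
      funext i
      fin_cases i <;> simp
    have h3 := hN.add (t 0 • Pi.single 0 (1 : ℝ) + t 1 • Pi.single 1 (1 : ℝ))
      (t 2 • Pi.single 2 (1 : ℝ))
    have h4 := hN.add (t 0 • Pi.single 0 (1 : ℝ)) (t 1 • Pi.single 1 (1 : ℝ))
    rw [← h2] at h3
    rw [hN.smul] at h3
    rw [hN.smul, hN.smul] at h4
    have h5 : ∀ i : Fin 3, |t i| * W (Pi.single i 1) ≤ W (Pi.single i 1) := fun i =>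
      mul_le_of_le_one_left (hN.nonneg _) (ht0 i)
    have h50 := h5 0
    have h51 := h5 1
    have h52 := h5 2
    linarith
  have htx : t ⬝ᵥ toR x ≤ B := by
    rw [hB]
    unfold dotProduct
    apply Finset.sum_le_sum
    intro i _
    calc t i * toR x i ≤ |t i * toR x i| := le_abs_self _
      _ = |t i| * |toR x i| := abs_mul _ _
      _ ≤ 1 * |toR x i| := mul_le_mul_of_nonneg_right (ht0 i) (abs_nonneg _)
      _ = |(x i : ℝ)| := by rw [one_mul]; rfl
  refine ⟨P, ?_⟩
  rw [← toR_dot, hPt]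
  have h6 := hN.add ((n : ℝ) • y) ((-1 : ℝ) • t)
  rw [hN.smul, hN.smul, abs_neg, abs_one, one_mul, abs_of_nonneg (Nat.cast_nonneg n)] at h6
  rw [add_dotProduct, smul_dotProduct, smul_dotProduct, smul_eq_mul, smul_eq_mul]
  nlinarith

theorem exists_cov (hK : SBody K) (hW : Supp K W)
    (hno : ∀ x : Fin 3 → ℤ, toR x ∈ K → x 2 ≠ 1) :
    ∃ m : ℕ, ∃ F : Fin m → (Fin 3 → ℤ) × ℤ, Good W F ∧ Cov F := by
  have hN := hW.normD hK
  obtain ⟨R, hR⟩ := exists_nat_gt (W ![1, 0, 0] + W ![0, 1, 0])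
  have h0 := hN.nonneg ![1, 0, 0]
  have h1 := hN.nonneg ![0, 1, 0]
  have hsep : ∀ z : Fin 2 → ℤ, ∃ P : Fin 3 → ℤ, W (toR P) < ((ev P z : ℤ) : ℝ) := by
    intro z
    obtain ⟨P, hP⟩ := sep hK hW ![z 0, z 1, 1] (fun h => hno _ h rfl)
    exact ⟨P, by rwa [ev_eq] at hP⟩
  choose P hP using hsep
  -- the finite box
  let box : Finset (Fin 2 → ℤ) := Fintype.piFinset fun _ => Finset.Icc (-(R : ℤ)) R
  let G : Finset ((Fin 3 → ℤ) × ℤ) :=
    (box.image fun z => (P z, ev (P z) z)) ∪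
      {(![1, 0, 0], (R : ℤ)), (![-1, 0, 0], (R : ℤ)), (![0, 1, 0], (R : ℤ)), (![0, -1, 0], (R : ℤ))}
  have hneg : ∀ a : Fin 3 → ℝ, W (-a) = W a := by
    intro a
    have h1 := hN.smul (-1) a
    rw [abs_neg, abs_one, one_mul, neg_one_smul] at h1
    exact h1
  have hG : ∀ p ∈ G, W (toR p.1) < (p.2 : ℝ) := by
    intro p hp
    simp only [G, Finset.mem_union, Finset.mem_image, Finset.mem_insert,
      Finset.mem_singleton] at hp
    rcases hp with ⟨z, -, rfl⟩ | rfl | rfl | rfl | rfl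
    · exact hP z
    · have : toR (![1, 0, 0] : Fin 3 → ℤ) = ![1, 0, 0] := by
        funext i; fin_cases i <;> simp [toR]
      show W (toR (![1, 0, 0] : Fin 3 → ℤ)) < ((R : ℤ) : ℝ)
      rw [this]
      push_cast
      linarith
    · have : toR (![-1, 0, 0] : Fin 3 → ℤ) = -![1, 0, 0] := by
        funext i; fin_cases i <;> simp [toR]
      show W (toR (![-1, 0, 0] : Fin 3 → ℤ)) < ((R : ℤ) : ℝ)
      rw [this, hneg]
      push_cast
      linarith
    · have : toR (![0, 1, 0] : Fin 3 → ℤ) = ![0, 1, 0] := by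
        funext i; fin_cases i <;> simp [toR]
      show W (toR (![0, 1, 0] : Fin 3 → ℤ)) < ((R : ℤ) : ℝ)
      rw [this]
      push_cast
      linarith
    · have : toR (![0, -1, 0] : Fin 3 → ℤ) = -![0, 1, 0] := by
        funext i; fin_cases i <;> simp [toR]
      show W (toR (![0, -1, 0] : Fin 3 → ℤ)) < ((R : ℤ) : ℝ)
      rw [this, hneg]
      push_cast
      linarith
  have hcov : ∀ z : Fin 2 → ℤ, ∃ p ∈ G, p.2 ≤ ev p.1 z := by
    intro z
    by_cases hz : z ∈ box
    · refine ⟨(P z, ev (P z) z), ?_, le_rfl⟩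
      simp only [G, Finset.mem_union, Finset.mem_image]
      exact Or.inl ⟨z, hz, rfl⟩
    · have : ∃ i, ¬ (z i ∈ Finset.Icc (-(R : ℤ)) R) := by
        by_contra hc
        push Not at hc
        exact hz (Fintype.mem_piFinset.2 hc)
      obtain ⟨i, hi⟩ := this
      rw [Finset.mem_Icc, not_and_or, not_le, not_le] at hi
      fin_cases i
      · rcases hi with hi | hi
        · refine ⟨(![-1, 0, 0], (R : ℤ)), by simp [G], ?_⟩
          simp only [ev] at *
          simp at *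
          linarith
        · refine ⟨(![1, 0, 0], (R : ℤ)), by simp [G], ?_⟩
          simp only [ev] at *
          simp at *
          linarith
      · rcases hi with hi | hi
        · refine ⟨(![0, -1, 0], (R : ℤ)), by simp [G], ?_⟩
          simp only [ev] at *
          simp at *
          linarith
        · refine ⟨(![0, 1, 0], (R : ℤ)), by simp [G], ?_⟩
          simp only [ev] at *
          simp at *
          linarith
  refine ⟨G.card, fun i => (G.equivFin.symm i : (Fin 3 → ℤ) × ℤ), ?_, ?_⟩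
  · intro i
    exact hG _ (G.equivFin.symm i).2
  · intro z
    obtain ⟨p, hp, hpz⟩ := hcov z
    refine ⟨G.equivFin ⟨p, hp⟩, ?_⟩
    simpa using hpz

/-- pushing out a covering family all of whose members are needed -/
theorem push {m : ℕ}
    (hmin : ∀ F : Fin m → (Fin 3 → ℤ) × ℤ, Good W F → Cov F → ∀ a, ∃ z, ∀ j, j ≠ a →
      ev (F j).1 z < (F j).2)
    (F : Fin m → (Fin 3 → ℤ) × ℤ) (hF : Good W F) (hc : Cov F) (s : Finset (Fin m)) :
    ∃ F' : Fin m → (Fin 3 → ℤ) × ℤ, Good W F' ∧ Cov F' ∧ ∀ i ∈ s, ∃ z, Touch F' i z := by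
  classical
  induction s using Finset.induction_on with
  | empty => exact ⟨F, hF, hc, by simp⟩
  | insert a s ha ih =>
    obtain ⟨F', hF', hc', hs⟩ := ih
    obtain ⟨z0, hz0⟩ := hmin F' hF' hc' a
    have hge : ∀ z, (∀ j, j ≠ a → ev (F' j).1 z < (F' j).2) → (F' a).2 ≤ ev (F' a).1 z := by
      intro z hz
      obtain ⟨i, hi⟩ := hc' z
      by_cases hia : i = a
      · rw [← hia]; exact hi
      · exact absurd hi (not_le.2 (hz i hia))
    obtain ⟨N', ⟨z1, hz1, hN'⟩, hleast⟩ := Int.exists_least_of_bdd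
      (P := fun k => ∃ z, (∀ j, j ≠ a → ev (F' j).1 z < (F' j).2) ∧ ev (F' a).1 z = k)
      ⟨(F' a).2, fun k ⟨z, hz, hk⟩ => hk ▸ hge z hz⟩ ⟨_, z0, hz0, rfl⟩
    have hNN : (F' a).2 ≤ N' := hN' ▸ hge z1 hz1
    refine ⟨Function.update F' a ((F' a).1, N'), ?_, ?_, ?_⟩
    · intro i
      by_cases hia : i = a
      · subst hia
        rw [Function.update_self]
        have h1 := hF' i
        have h2 : (((F' i).2 : ℤ) : ℝ) ≤ (N' : ℝ) := by exact_mod_cast hNN
        exact lt_of_lt_of_le h1 h2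
      · rw [Function.update_of_ne hia]
        exact hF' i
    · intro z
      by_cases hz : ∀ j, j ≠ a → ev (F' j).1 z < (F' j).2
      · refine ⟨a, ?_⟩
        rw [Function.update_self]
        exact hleast _ ⟨z, hz, rfl⟩
      · push Not at hz
        obtain ⟨j, hja, hj⟩ := hz
        refine ⟨j, ?_⟩
        rw [Function.update_of_ne hja]
        exact hj
    · intro i hi
      rw [Finset.mem_insert] at hi
      by_cases hia : i = a
      · subst hia
        refine ⟨z1, ?_, ?_⟩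
        · rw [Function.update_self]
          exact hN'
        · intro j hj
          rw [Function.update_of_ne hj]
          exact hz1 j hj
      · obtain ⟨z, hzt, hzo⟩ := hs i (hi.resolve_left hia)
        refine ⟨z, ?_, ?_⟩
        · rw [Function.update_of_ne hia]
          exact hzt
        · intro j hj
          by_cases hja : j = a
          · subst hja
            rw [Function.update_self]
            exact lt_of_lt_of_le (hzo j hj) hNN
          · rw [Function.update_of_ne hja]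
            exact hzo j hj

/-- the touching family -/
theorem exists_touch (hK : SBody K) (hW : Supp K W)
    (hno : ∀ x : Fin 3 → ℤ, toR x ∈ K → x 2 ≠ 1) :
    ∃ m : ℕ, ∃ F : Fin m → (Fin 3 → ℤ) × ℤ, ∃ z : Fin m → (Fin 2 → ℤ),
      Good W F ∧ Cov F ∧ ∀ i, Touch F i (z i) := by
  classical
  have hex := exists_cov hK hW hno
  let m := Nat.find hex
  obtain ⟨F, hF, hc⟩ : ∃ F : Fin m → (Fin 3 → ℤ) × ℤ, Good W F ∧ Cov F := Nat.find_spec hex
  have hmin : ∀ k, k < m → ¬ ∃ F : Fin k → (Fin 3 → ℤ) × ℤ, Good W F ∧ Cov F := fun k hk =>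
    Nat.find_min hex hk
  clear_value m
  obtain ⟨F', hF', hc', ht⟩ := push (W := W) (m := m) (by
    intro F hF hc a
    by_contra hcon
    push Not at hcon
    obtain ⟨k, rfl⟩ : ∃ k, m = k + 1 := by
      cases m with
      | zero => exact a.elim0
      | succ k => exact ⟨k, rfl⟩
    refine hmin k (Nat.lt_succ_self k) ⟨fun j => F (a.succAbove j), fun j => hF _, ?_⟩
    intro z
    obtain ⟨j, hja, hj⟩ := hcon z
    obtain ⟨j', rfl⟩ := Fin.exists_succAbove_eq hja
    exact ⟨j', hj⟩) F hF hc Finset.univ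
  choose z hz using fun i => ht i (Finset.mem_univ i)
  exact ⟨m, F', z, hF', hc', hz⟩

end Helper84.ND
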