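import Pool.Agent.Helper84.ND.Empty

/-!
The planar data seen from the slice: points of the slice satisfy all strict inequalities of the
family.
-/

namespace Helper84.ND

open Matrix Set Helper31.Ewald Helper15.NL

/-- the value of the integer functional `P` at the real point `(s, 1)` -/
def evR (P : Fin 3 → ℤ) (s : Fin 2 → ℝ) : ℝ := (P 0 : ℝ) * s 0 + (P 1 : ℝ) * s 1 + (P 2 : ℝ)

/-- all strict inequalities hold at `s` -/
def Inside {m : ℕ} (F : Fin m → (Fin 3 → ℤ) × ℤ) (s : Fin 2 → ℝ) : Prop :=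
  ∀ i, evR (F i).1 s < ((F i).2 : ℝ)

/-- the open polygon has lattice width at least two (attained) -/
def Wide {m : ℕ} (F : Fin m → (Fin 3 → ℤ) × ℤ) : Prop :=
  ∀ v : Fin 2 → ℤ, v ≠ 0 → ∃ x y : Fin 2 → ℝ, Inside F x ∧ Inside F y ∧
    2 ≤ (v 0 : ℝ) * (x 0 - y 0) + (v 1 : ℝ) * (x 1 - y 1)

variable {K : Set (Fin 3 → ℝ)} {W : (Fin 3 → ℝ) → ℝ}

theorem inside_of_mem (hW : Supp K W) {m : ℕ} {F : Fin m → (Fin 3 → ℤ) × ℤ} (hF : Good W F)
    {s : Fin 2 → ℝ} (hs : ![s 0, s 1, 1] ∈ K) : Inside F s := by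
  intro i
  have h1 := hW.le (toR (F i).1) _ hs
  have h2 : toR (F i).1 ⬝ᵥ ![s 0, s 1, 1] = evR (F i).1 s := by
    simp [toR, dotProduct, Fin.sum_univ_three, evR]
  rw [h2] at h1
  exact lt_of_le_of_lt h1 (hF i)

theorem wide_of (hW : Supp K W) {m : ℕ} {F : Fin m → (Fin 3 → ℤ) × ℤ} (hF : Good W F)
    (hwid : ∀ v : Fin 2 → ℤ, v ≠ 0 →
      ∃ x y : Fin 2 → ℝ, ![x 0, x 1, 1] ∈ K ∧ ![y 0, y 1, 1] ∈ K ∧ 2 ≤ toR v ⬝ᵥ (x - y)) :
    Wide F := by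
  intro v hv
  obtain ⟨x, y, hx, hy, h⟩ := hwid v hv
  refine ⟨x, y, inside_of_mem hW hF hx, inside_of_mem hW hF hy, ?_⟩
  simpa [toR, dotProduct, Fin.sum_univ_two] using h

end Helper84.ND
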